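import Mathlib

set_option autoImplicit false

namespace Pool.Agent.H384.BohrRank

/-! ### Points all of whose first multiples stay in a short arc -/

/-- If `θ, 2θ, …, kθ` are all within `β < 1/2` of integers, then `θ` is within `1/k` of a rational number with a
bounded denominator. -/
lemma rational_near {θ β : ℝ} {Q k : ℕ} (hβ0 : 0 ≤ β) (hQ : 1 ≤ Q) (hβ : 1 / ((Q : ℝ) + 1) < 1 - 2 * β)
    (hk : 2 * Q ≤ k)
    (h : ∀ j : ℕ, 1 ≤ j → j ≤ k → ∃ n : ℤ, |(j : ℝ) * θ - n| ≤ β) :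
    ∃ q : ℕ, ∃ p : ℤ, 1 ≤ q ∧ q ≤ Q ∧ |(q : ℝ) * θ - p| ≤ (q : ℝ) / k := by
  obtain ⟨p, q', hq0, hqQ, hpq⟩ := Real.exists_int_int_abs_mul_sub_le θ (n := Q) (by omega)
  obtain ⟨q, rfl⟩ : ∃ q : ℕ, q' = q := ⟨q'.toNat, by omega⟩
  have hq1 : 1 ≤ q := by exact_mod_cast hq0
  have hqQ' : q ≤ Q := by exact_mod_cast hqQ
  refine ⟨q, p, hq1, hqQ', ?_⟩
  by_contra hcon
  push Not at hcon
  push_cast at hpq
  set φ := (q : ℝ) * θ - p with hφ
  have hk0 : (0 : ℝ) < (k : ℝ) := by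
    have : 0 < k := by omega
    exact_mod_cast this
  have hqpos : (0 : ℝ) < (q : ℝ) := by exact_mod_cast hq1
  have hφpos : 0 < |φ| := lt_of_le_of_lt (by positivity) hcon
  set i := ⌊β / |φ|⌋₊ + 1 with hi
  have hi1 : β < i * |φ| := by
    have := Nat.lt_floor_add_one (β / |φ|)
    rw [div_lt_iff₀ hφpos] at this
    rw [hi]
    push_cast
    exact this
  have hi2 : (i : ℝ) ≤ β / |φ| + 1 := by
    rw [hi]
    push_cast
    have := Nat.floor_le (show 0 ≤ β / |φ| by positivity)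
    linarith
  have hi3 : i * |φ| ≤ β + |φ| := by
    calc (i : ℝ) * |φ| ≤ (β / |φ| + 1) * |φ| := mul_le_mul_of_nonneg_right hi2 hφpos.le
      _ = β + |φ| := by field_simp
  have hi4 : i * |φ| < 1 - β := by
    have : |φ| ≤ 1 / ((Q : ℝ) + 1) := hpq
    linarith
  have hβhalf : β < 1 / 2 := by
    have : 0 < 1 / ((Q : ℝ) + 1) := by positivity
    linarith
  have hle : i * q ≤ k := by
    have e1 : β / |φ| ≤ β * k / q := by
      rw [div_le_div_iff₀ hφpos hqpos]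
      have : (q : ℝ) ≤ k * |φ| := by
        rw [div_lt_iff₀ hk0] at hcon
        linarith
      calc β * q ≤ β * (k * |φ|) := mul_le_mul_of_nonneg_left this hβ0
        _ = β * k * |φ| := by ring
    have e2 : (i : ℝ) * q ≤ β * k + q := by
      calc (i : ℝ) * q ≤ (β / |φ| + 1) * q := mul_le_mul_of_nonneg_right hi2 hqpos.le
        _ ≤ (β * k / q + 1) * q := by
            apply mul_le_mul_of_nonneg_right _ hqpos.le
            linarith
        _ = β * k + q := by field_simp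
    have e3 : (q : ℝ) ≤ k / 2 := by
      have : (2 : ℝ) * Q ≤ k := by exact_mod_cast hk
      have h' : (q : ℝ) ≤ Q := by exact_mod_cast hqQ'
      linarith
    have e4 : (i : ℝ) * q ≤ k := by nlinarith
    exact_mod_cast e4
  have hge : 1 ≤ i * q := Nat.mul_pos (by omega) hq1
  obtain ⟨n, hn⟩ := h (i * q) hge hle
  have e5 : (((i * q : ℕ) : ℝ)) * θ - n = i * φ - ((n - i * p : ℤ) : ℝ) := by
    rw [hφ]
    push_cast
    ring
  rw [e5] at hn
  by_cases hn0 : n - i * p = 0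
  · rw [hn0] at hn
    push_cast at hn
    rw [sub_zero, abs_mul, abs_of_nonneg (Nat.cast_nonneg i)] at hn
    linarith
  · have e6 : (1 : ℝ) ≤ |((n - i * p : ℤ) : ℝ)| := by
      rw [← Int.cast_abs]
      exact_mod_cast Int.one_le_abs hn0
    have e7 : |((n - i * p : ℤ) : ℝ)| ≤ |i * φ - ((n - i * p : ℤ) : ℝ)| + |(i : ℝ) * φ| := by
      have := abs_sub_abs_le_abs_sub ((n - i * p : ℤ) : ℝ) ((i : ℝ) * φ)
      rw [abs_sub_comm] at this
      linarith
    have e8 : |(i : ℝ) * φ| = i * |φ| := by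
      rw [abs_mul, abs_of_nonneg (Nat.cast_nonneg i : (0 : ℝ) ≤ (i : ℝ))]
    rw [e8] at e7
    linarith

/-! ### Counting by digits -/

/-- The digits that are close to a rational number with denominator at most `Q`. -/
noncomputable def dset (M Q k : ℕ) : Finset ℤ :=
  ((Finset.Icc 1 Q) ×ˢ (Finset.range (Q + 1))).biUnion fun qp =>
    Finset.Icc ⌈(M : ℝ) * qp.2 / qp.1 - ((M : ℝ) / k + 1)⌉ ⌊(M : ℝ) * qp.2 / qp.1 + ((M : ℝ) / k + 1)⌋

lemma card_dset {M Q k : ℕ} (hk : 1 ≤ k) (hkM : k ≤ M) :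
    k * (dset M Q k).card ≤ 5 * (Q * (Q + 1)) * M := by
  have h1 : (dset M Q k).card ≤ ∑ qp ∈ ((Finset.Icc 1 Q) ×ˢ (Finset.range (Q + 1))),
      (Finset.Icc ⌈(M : ℝ) * qp.2 / qp.1 - ((M : ℝ) / k + 1)⌉
        ⌊(M : ℝ) * qp.2 / qp.1 + ((M : ℝ) / k + 1)⌋).card := Finset.card_biUnion_le
  have hk0 : (0 : ℝ) < (k : ℝ) := by exact_mod_cast hk
  have hterm : ∀ c : ℝ, ((Finset.Icc ⌈c - ((M : ℝ) / k + 1)⌉ ⌊c + ((M : ℝ) / k + 1)⌋).card : ℝ) ≤
      2 * ((M : ℝ) / k) + 3 := by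
    intro c
    rw [Int.card_Icc]
    have a1 := Int.floor_le (c + ((M : ℝ) / k + 1))
    have a2 := Int.le_ceil (c - ((M : ℝ) / k + 1))
    have hnn : (0 : ℝ) ≤ 2 * ((M : ℝ) / k) + 3 := by positivity
    rcases le_or_gt 0 (⌊c + ((M : ℝ) / k + 1)⌋ + 1 - ⌈c - ((M : ℝ) / k + 1)⌉) with h | h
    · have : (((⌊c + ((M : ℝ) / k + 1)⌋ + 1 - ⌈c - ((M : ℝ) / k + 1)⌉).toNat : ℤ) : ℝ) =
          ((⌊c + ((M : ℝ) / k + 1)⌋ + 1 - ⌈c - ((M : ℝ) / k + 1)⌉ : ℤ) : ℝ) := by
        rw [Int.toNat_of_nonneg h]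
      rw [Int.cast_natCast] at this
      rw [this]
      push_cast
      linarith
    · rw [Int.toNat_of_nonpos h.le]
      simpa using hnn
  have h2 : ((dset M Q k).card : ℝ) ≤ (Q * (Q + 1) : ℕ) * (2 * ((M : ℝ) / k) + 3) := by
    calc ((dset M Q k).card : ℝ) ≤ ∑ qp ∈ ((Finset.Icc 1 Q) ×ˢ (Finset.range (Q + 1))),
          ((Finset.Icc ⌈(M : ℝ) * qp.2 / qp.1 - ((M : ℝ) / k + 1)⌉
            ⌊(M : ℝ) * qp.2 / qp.1 + ((M : ℝ) / k + 1)⌋).card : ℝ) := by exact_mod_cast h1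
      _ ≤ ∑ qp ∈ ((Finset.Icc 1 Q) ×ˢ (Finset.range (Q + 1))), (2 * ((M : ℝ) / k) + 3) :=
          Finset.sum_le_sum fun qp _ => hterm _
      _ = (Q * (Q + 1) : ℕ) * (2 * ((M : ℝ) / k) + 3) := by
          rw [Finset.sum_const, Finset.card_product, Nat.card_Icc, Finset.card_range, nsmul_eq_mul,
            Nat.add_sub_cancel]
  have h3 : (k : ℝ) * ((dset M Q k).card : ℝ) ≤ 5 * (Q * (Q + 1) : ℕ) * M := by
    have hkM' : (k : ℝ) ≤ M := by exact_mod_cast hkM
    calc (k : ℝ) * ((dset M Q k).card : ℝ) ≤ k * ((Q * (Q + 1) : ℕ) * (2 * ((M : ℝ) / k) + 3)) :=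
          mul_le_mul_of_nonneg_left h2 hk0.le
      _ = (Q * (Q + 1) : ℕ) * (2 * M + 3 * k) := by field_simp
      _ ≤ (Q * (Q + 1) : ℕ) * (5 * M) := by
          apply mul_le_mul_of_nonneg_left _ (Nat.cast_nonneg _)
          linarith
      _ = 5 * (Q * (Q + 1) : ℕ) * M := by ring
  exact_mod_cast h3

lemma mem_dset {M Q k : ℕ} {θ : ℝ} {B C : ℤ} (hk : Q < k) {q : ℕ} {p : ℤ} (hq : 1 ≤ q) (hqQ : q ≤ Q)
    (h : |(q : ℝ) * θ - p| ≤ (q : ℝ) / k) (hB : (B : ℝ) ≤ θ ∧ θ < B + 1) (hC : (C : ℝ) ≤ M * θ ∧ M * θ < C + 1) :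
    C - M * B ∈ dset M Q k := by
  have hqpos : (0 : ℝ) < (q : ℝ) := by exact_mod_cast hq
  have hk0 : (0 : ℝ) < (k : ℝ) := by
    have : 0 < k := by omega
    exact_mod_cast this
  have hqk : (q : ℝ) < k := by exact_mod_cast (lt_of_le_of_lt hqQ hk)
  have hlt1 : (q : ℝ) / k < 1 := (div_lt_one hk0).mpr hqk
  rw [abs_le] at h
  -- the shifted numerator
  have hp0 : 0 ≤ p - q * B := by
    have : (-1 : ℝ) < ((p - q * B : ℤ) : ℝ) := by
      push_cast
      nlinarith [hB.1]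
    have : (-1 : ℤ) < p - q * B := by exact_mod_cast this
    omega
  have hp1 : p - q * B ≤ q := by
    have : ((p - q * B : ℤ) : ℝ) < (q : ℝ) + 1 := by
      push_cast
      nlinarith [hB.2]
    have : (p - q * B : ℤ) < (q : ℤ) + 1 := by exact_mod_cast this
    omega
  obtain ⟨r, hr⟩ : ∃ r : ℕ, (r : ℤ) = p - q * B := ⟨(p - q * B).toNat, Int.toNat_of_nonneg hp0⟩
  have hrQ : r < Q + 1 := by
    have : (r : ℤ) ≤ q := by rw [hr]; exact hp1
    omega
  have hrR : (r : ℝ) = (p : ℝ) - q * B := by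
    have := congrArg (fun z : ℤ => (z : ℝ)) hr
    push_cast at this
    exact this
  unfold dset
  rw [Finset.mem_biUnion]
  refine ⟨(q, r), ?_, ?_⟩
  · rw [Finset.mem_product, Finset.mem_Icc, Finset.mem_range]
    exact ⟨⟨hq, hqQ⟩, hrQ⟩
  · rw [Finset.mem_Icc]
    have hM0 : (0 : ℝ) ≤ (M : ℝ) := Nat.cast_nonneg M
    have key : |(M : ℝ) * (θ - B) - M * r / q| ≤ M / k := by
      have e1 : (M : ℝ) * (θ - B) - M * r / q = (M / q) * (q * θ - p) := by
        rw [hrR]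
        field_simp
        ring
      rw [e1, abs_mul, abs_of_nonneg (by positivity)]
      calc (M : ℝ) / q * |(q : ℝ) * θ - p| ≤ M / q * (q / k) :=
            mul_le_mul_of_nonneg_left (abs_le.mpr h) (by positivity)
        _ = M / k := by field_simp
    rw [abs_le] at key
    constructor
    · rw [Int.ceil_le]
      push_cast
      linarith [key.1, key.2, hC.1, hC.2]
    · rw [Int.le_floor]
      push_cast
      linarith [key.1, key.2, hC.1, hC.2]

/-- The digits of `v / N` in base `M`: `⌊M ^ (i + 1) v / N⌋ - M ⌊M ^ i v / N⌋`. -/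
def dig (M N v i : ℕ) : ℤ := ((M ^ (i + 1) * v / N : ℕ) : ℤ) - (M : ℤ) * ((M ^ i * v / N : ℕ) : ℤ)

lemma dig_mem {M N Q k v i : ℕ} (hN : 0 < N) (hk : Q < k)
    (h : ∃ q : ℕ, ∃ p : ℤ, 1 ≤ q ∧ q ≤ Q ∧ |(q : ℝ) * ((M : ℝ) ^ i * v / N) - p| ≤ (q : ℝ) / k) :
    dig M N v i ∈ dset M Q k := by
  obtain ⟨q, p, hq, hqQ, hpq⟩ := h
  have hN' : (0 : ℝ) < (N : ℝ) := by exact_mod_cast hN
  have hdiv : ∀ x : ℕ, ((x / N : ℕ) : ℝ) ≤ (x : ℝ) / N ∧ (x : ℝ) / N < ((x / N : ℕ) : ℝ) + 1 := by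
    intro x
    constructor
    · exact Nat.cast_div_le
    · rw [div_lt_iff₀ hN']
      have := Nat.lt_mul_div_succ x hN
      have h' : (x : ℝ) < ((N * (x / N + 1) : ℕ) : ℝ) := by exact_mod_cast this
      push_cast at h'
      linarith
  have h1 := hdiv (M ^ i * v)
  have h2 := hdiv (M ^ (i + 1) * v)
  unfold dig
  refine mem_dset hk hq hqQ hpq ?_ ?_
  · push_cast at h1 ⊢
    exact h1
  · push_cast at h2 ⊢
    have e : (M : ℝ) * ((M : ℝ) ^ i * v / N) = (M : ℝ) ^ (i + 1) * v / N := by ring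
    rw [e]
    exact h2

/-- Equal digits give equal first `d` digits as a number. -/
lemma eq_of_dig {M N v v' : ℕ} (hv : v < N) (hv' : v' < N) : ∀ d : ℕ,
    (∀ i < d, dig M N v i = dig M N v' i) → M ^ d * v / N = M ^ d * v' / N := by
  intro d
  induction d with
  | zero =>
    intro _
    rw [pow_zero, one_mul, one_mul, Nat.div_eq_of_lt hv, Nat.div_eq_of_lt hv']
  | succ d ih =>
    intro h
    have h1 := ih fun i hi => h i (by omega)
    have h2 := h d (by omega)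
    unfold dig at h2
    rw [h1] at h2
    have h3 : ((M ^ (d + 1) * v / N : ℕ) : ℤ) = ((M ^ (d + 1) * v' / N : ℕ) : ℤ) := by linarith
    exact_mod_cast h3

/-- The number of points whose first `k` multiples stay in a short arc in `d` scales. -/
lemma card_le {M N Q k d : ℕ} (hM : 1 ≤ M) (hN : 0 < N) (hk : Q < k) (X : Finset ℕ)
    (hX : ∀ v ∈ X, v < N ∧ ∀ i < d, ∃ q : ℕ, ∃ p : ℤ, 1 ≤ q ∧ q ≤ Q ∧
      |(q : ℝ) * ((M : ℝ) ^ i * v / N) - p| ≤ (q : ℝ) / k) :
    X.card ≤ (N / M ^ d + 1) * (dset M Q k).card ^ d := by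
  classical
  let f : ℕ → (Fin d → ℤ) := fun v i => dig M N v i
  have h1 : X.card ≤ (N / M ^ d + 1) * (X.image f).card := by
    apply Finset.card_le_mul_card_image
    intro y hy
    rw [Finset.mem_image] at hy
    obtain ⟨v0, hv0, hfv0⟩ := hy
    -- the fibre lies in an interval
    set B := M ^ d * v0 / N with hB
    set c := (B * N + (M ^ d - 1)) / M ^ d with hc
    have hMd : 0 < M ^ d := Nat.pow_pos hM
    have hsub : X.filter (fun v => f v = y) ⊆ Finset.Icc c (c + N / M ^ d) := by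
      intro v hv
      rw [Finset.mem_filter] at hv
      have hBv : M ^ d * v / N = B := by
        apply eq_of_dig (hX v hv.1).1 (hX v0 hv0).1
        intro i hi
        have := congrFun (hv.2.trans hfv0.symm) ⟨i, hi⟩
        exact this
      have hlow : B * N ≤ M ^ d * v := by
        rw [← hBv]
        exact Nat.div_mul_le_self _ _
      have hupp : M ^ d * v < (B + 1) * N := by
        rw [← hBv, mul_comm _ N]
        exact Nat.lt_mul_div_succ _ hN
      have hc1 : M ^ d * c ≤ B * N + (M ^ d - 1) := by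
        rw [hc]; exact Nat.mul_div_le _ _
      have hc2 : B * N ≤ M ^ d * c := by
        have := Nat.lt_mul_div_succ (B * N + (M ^ d - 1)) hMd
        rw [← hc] at this
        have e : M ^ d * (c + 1) = M ^ d * c + M ^ d := by ring
        omega
      rw [Finset.mem_Icc]
      constructor
      · by_contra hlt
        push Not at hlt
        have : M ^ d * (v + 1) ≤ M ^ d * c := Nat.mul_le_mul_left _ hlt
        have e : M ^ d * (v + 1) = M ^ d * v + M ^ d := by ring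
        omega
      · by_contra hlt
        push Not at hlt
        have h5 : N < M ^ d * (N / M ^ d + 1) := Nat.lt_mul_div_succ N hMd
        have h6 : M ^ d * (c + (N / M ^ d + 1)) ≤ M ^ d * v := Nat.mul_le_mul_left _ (by omega)
        have e : M ^ d * (c + (N / M ^ d + 1)) = M ^ d * c + M ^ d * (N / M ^ d + 1) := by ring
        have e2 : (B + 1) * N = B * N + N := by ring
        omega
    calc (X.filter (fun v => f v = y)).card ≤ (Finset.Icc c (c + N / M ^ d)).card :=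
          Finset.card_le_card hsub
      _ = N / M ^ d + 1 := by rw [Nat.card_Icc, Nat.add_assoc, Nat.add_sub_cancel_left]
  have h2 : X.image f ⊆ Fintype.piFinset fun _ : Fin d => dset M Q k := by
    intro y hy
    rw [Finset.mem_image] at hy
    obtain ⟨v, hv, rfl⟩ := hy
    rw [Fintype.mem_piFinset]
    intro i
    exact dig_mem hN hk ((hX v hv).2 i i.2)
  have h3 : (X.image f).card ≤ (dset M Q k).card ^ d := by
    refine (Finset.card_le_card h2).trans ?_
    rw [Fintype.card_piFinset, Finset.prod_const, Finset.card_univ, Fintype.card_fin]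
  exact h1.trans (Nat.mul_le_mul_left _ h3)

/-! ### The set -/

/-- The numbers below `M ^ d` with all base `M` digits smaller than `a`. -/
def cubeSet (M a : ℕ) : ℕ → Finset ℕ
  | 0 => {0}
  | d + 1 => ((cubeSet M a d) ×ˢ (Finset.range a)).image fun p => p.1 + M ^ d * p.2

lemma cubeSet_prop {M a : ℕ} (hM : 1 ≤ M) (ha : a ≤ M) : ∀ d : ℕ, ∀ B ∈ cubeSet M a d,
    B < M ^ d ∧ ∀ i < d, B % M ^ (i + 1) < a * M ^ i := by
  intro d
  induction d with
  | zero =>
    intro B hB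
    simp only [cubeSet, Finset.mem_singleton] at hB
    subst hB
    exact ⟨by simp, fun i hi => absurd hi (by omega)⟩
  | succ d ih =>
    intro B hB
    simp only [cubeSet, Finset.mem_image, Finset.mem_product, Finset.mem_range] at hB
    obtain ⟨⟨B', b⟩, ⟨hB', hb⟩, rfl⟩ := hB
    obtain ⟨h1, h2⟩ := ih B' hB'
    simp only at h1 h2 hb ⊢
    have hMd : 0 < M ^ d := Nat.pow_pos hM
    have hlt : B' + M ^ d * b < M ^ d * a := by
      have : M ^ d * (b + 1) ≤ M ^ d * a := Nat.mul_le_mul_left _ hb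
      have e : M ^ d * (b + 1) = M ^ d * b + M ^ d := by ring
      omega
    have hlt2 : B' + M ^ d * b < M ^ (d + 1) := by
      refine lt_of_lt_of_le hlt ?_
      rw [pow_succ]
      exact Nat.mul_le_mul_left _ ha
    refine ⟨hlt2, fun i hi => ?_⟩
    rcases Nat.lt_succ_iff_lt_or_eq.mp hi with h | h
    · have hdvd : M ^ d * b = M ^ (i + 1) * (M ^ (d - (i + 1)) * b) := by
        rw [← mul_assoc, ← pow_add]
        congr 2
        omega
      rw [hdvd, Nat.add_mul_mod_self_left]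
      exact h2 i h
    · subst h
      rw [Nat.mod_eq_of_lt hlt2, mul_comm a]
      exact hlt

lemma card_cubeSet {M a : ℕ} (hM : 1 ≤ M) (ha : a ≤ M) : ∀ d : ℕ, (cubeSet M a d).card = a ^ d := by
  intro d
  induction d with
  | zero => simp [cubeSet]
  | succ d ih =>
    simp only [cubeSet]
    rw [Finset.card_image_of_injOn, Finset.card_product, Finset.card_range, ih, pow_succ]
    intro p hp p' hp' h
    rw [Finset.mem_coe, Finset.mem_product] at hp hp'
    have h1 := (cubeSet_prop hM ha d p.1 hp.1).1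
    have h2 := (cubeSet_prop hM ha d p'.1 hp'.1).1
    simp only at h
    have hMd : 0 < M ^ d := Nat.pow_pos hM
    have e1 : (p.1 + M ^ d * p.2) % M ^ d = p.1 := by
      rw [Nat.add_mul_mod_self_left, Nat.mod_eq_of_lt h1]
    have e2 : (p'.1 + M ^ d * p'.2) % M ^ d = p'.1 := by
      rw [Nat.add_mul_mod_self_left, Nat.mod_eq_of_lt h2]
    have e3 : p.1 = p'.1 := by rw [← e1, ← e2, h]
    have e4 : M ^ d * p.2 = M ^ d * p'.2 := by omega
    exact Prod.ext e3 (Nat.eq_of_mul_eq_mul_left hMd e4)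

/-- The points `v` of `[0, N)` whose leading digits form a member of the cube. -/
def ptN (M d N B s : ℕ) : ℕ := (B * N + (M ^ d - 1)) / M ^ d + s

lemma ptN_div {M d N B s w : ℕ} (hM : 1 ≤ M) (hN : 0 < N) (hw : M ^ d * w ≤ N) (hs : s < w) :
    M ^ d * ptN M d N B s / N = B := by
  have hMd : 0 < M ^ d := Nat.pow_pos hM
  unfold ptN
  set c := (B * N + (M ^ d - 1)) / M ^ d with hc
  have hc1 : M ^ d * c ≤ B * N + (M ^ d - 1) := by
    rw [hc]; exact Nat.mul_div_le _ _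
  have hc2 : B * N ≤ M ^ d * c := by
    have := Nat.lt_mul_div_succ (B * N + (M ^ d - 1)) hMd
    rw [← hc] at this
    have e : M ^ d * (c + 1) = M ^ d * c + M ^ d := by ring
    omega
  have h1 : M ^ d * (s + 1) ≤ M ^ d * w := Nat.mul_le_mul_left _ hs
  have e1 : M ^ d * (s + 1) = M ^ d * s + M ^ d := by ring
  have e2 : M ^ d * (c + s) = M ^ d * c + M ^ d * s := by ring
  have e3 : (B + 1) * N = B * N + N := by ring
  rw [Nat.div_eq_iff hN]
  constructor
  · rw [e2, mul_comm B N, mul_comm N B]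
    omega
  · rw [e2]
    omega

lemma lt_of_div {M d N B v : ℕ} (hN : 0 < N) (hB : B < M ^ d) (h : M ^ d * v / N = B) : v < N := by
  rw [← h, Nat.div_lt_iff_lt_mul hN] at hB
  exact Nat.lt_of_mul_lt_mul_left hB

/-- The leading digits of `M ^ i v / N` modulo one. -/
lemma near_of_cube {M a d N B v i : ℕ} (hM : 1 ≤ M) (ha : a ≤ M) (hN : 0 < N) (hB : B ∈ cubeSet M a d)
    (hv : M ^ d * v / N = B) (hi : i < d) :
    ∃ n : ℤ, 0 ≤ (M : ℝ) ^ i * v / N - n ∧ (M : ℝ) ^ i * v / N - n ≤ (a : ℝ) / M := by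
  obtain ⟨e, rfl⟩ : ∃ e, d = i + (e + 1) := ⟨d - i - 1, by omega⟩
  have hprop := (cubeSet_prop hM ha _ B hB).2 e (by omega)
  have hdm := Nat.mod_add_div B (M ^ (e + 1))
  have hN' : (0 : ℝ) < (N : ℝ) := by exact_mod_cast hN
  have hM' : (0 : ℝ) < (M : ℝ) := by exact_mod_cast hM
  have h1 : B * N ≤ M ^ (i + (e + 1)) * v := by
    rw [← hv]
    exact Nat.div_mul_le_self _ _
  have h2 : M ^ (i + (e + 1)) * v < N * (B + 1) := by
    rw [← hv]
    exact Nat.lt_mul_div_succ _ hN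
  set n := B / M ^ (e + 1) with hn
  set r := B % M ^ (e + 1) with hr
  have h1' : ((B : ℝ)) * N ≤ (M : ℝ) ^ (i + (e + 1)) * v := by exact_mod_cast h1
  have h2' : (M : ℝ) ^ (i + (e + 1)) * v < N * ((B : ℝ) + 1) := by exact_mod_cast h2
  have h3 : (B : ℝ) = r + (M : ℝ) ^ (e + 1) * n := by exact_mod_cast hdm.symm
  have h4 : (r : ℝ) + 1 ≤ a * (M : ℝ) ^ e := by exact_mod_cast hprop
  have hP : (0 : ℝ) < (M : ℝ) ^ (e + 1) := by positivity
  have e1 : (M : ℝ) ^ (i + (e + 1)) * v = (M : ℝ) ^ (e + 1) * ((M : ℝ) ^ i * v / N) * N := by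
    rw [pow_add]
    field_simp
  rw [e1] at h1' h2'
  have h5 : (B : ℝ) ≤ (M : ℝ) ^ (e + 1) * ((M : ℝ) ^ i * v / N) := le_of_mul_le_mul_right h1' hN'
  have h6 : (M : ℝ) ^ (e + 1) * ((M : ℝ) ^ i * v / N) < (B : ℝ) + 1 := by
    rw [mul_comm (N : ℝ)] at h2'
    exact lt_of_mul_lt_mul_right h2' hN'.le
  refine ⟨(n : ℤ), ?_, ?_⟩
  · push_cast
    have : (M : ℝ) ^ (e + 1) * n ≤ (M : ℝ) ^ (e + 1) * ((M : ℝ) ^ i * v / N) := by
      have : (0 : ℝ) ≤ (r : ℝ) := Nat.cast_nonneg r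
      linarith
    have := le_of_mul_le_mul_left this hP
    linarith
  · push_cast
    have e2 : (M : ℝ) ^ (e + 1) * ((a : ℝ) / M) = a * (M : ℝ) ^ e := by
      rw [pow_succ]
      field_simp
    have : (M : ℝ) ^ (e + 1) * ((M : ℝ) ^ i * v / N - n) ≤ (M : ℝ) ^ (e + 1) * ((a : ℝ) / M) := by
      rw [e2, mul_sub]
      linarith
    exact le_of_mul_le_mul_left this hP

/-- The set `A`. -/
def setA (M a d N w : ℕ) : Finset (ZMod N) :=
  ((cubeSet M a d) ×ˢ (Finset.range w)).image fun p => ((ptN M d N p.1 p.2 : ℕ) : ZMod N)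

lemma mem_setA {M a d N w : ℕ} [NeZero N] (hM : 1 ≤ M) (ha : a ≤ M) (hw : M ^ d * w ≤ N) {u : ZMod N}
    (hu : u ∈ setA M a d N w) : M ^ d * u.val / N ∈ cubeSet M a d := by
  have hN : 0 < N := Nat.pos_of_ne_zero (NeZero.ne N)
  unfold setA at hu
  rw [Finset.mem_image] at hu
  obtain ⟨⟨B, s⟩, hp, rfl⟩ := hu
  rw [Finset.mem_product, Finset.mem_range] at hp
  simp only at hp ⊢
  have h1 := ptN_div (B := B) hM hN hw hp.2
  have h2 := lt_of_div hN (cubeSet_prop hM ha d B hp.1).1 h1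
  rw [ZMod.val_natCast, Nat.mod_eq_of_lt h2, h1]
  exact hp.1

lemma card_setA {M a d N w : ℕ} [NeZero N] (hM : 1 ≤ M) (ha : a ≤ M) (hw : M ^ d * w ≤ N) :
    (setA M a d N w).card = a ^ d * w := by
  have hN : 0 < N := Nat.pos_of_ne_zero (NeZero.ne N)
  unfold setA
  rw [Finset.card_image_of_injOn, Finset.card_product, Finset.card_range, card_cubeSet hM ha]
  rintro ⟨B, s⟩ hp ⟨B', s'⟩ hp' h
  rw [Finset.mem_coe, Finset.mem_product, Finset.mem_range] at hp hp'
  simp only at hp hp' h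
  have h1 := ptN_div (B := B) hM hN hw hp.2
  have h2 := lt_of_div hN (cubeSet_prop hM ha d B hp.1).1 h1
  have h1' := ptN_div (B := B') hM hN hw hp'.2
  have h2' := lt_of_div hN (cubeSet_prop hM ha d B' hp'.1).1 h1'
  have h3 : ptN M d N B s = ptN M d N B' s' := by
    have := congrArg ZMod.val h
    rw [ZMod.val_natCast, ZMod.val_natCast, Nat.mod_eq_of_lt h2, Nat.mod_eq_of_lt h2'] at this
    exact this
  have h4 : B = B' := by rw [← h1, ← h1', h3]
  subst h4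
  unfold ptN at h3
  have h5 : s = s' := Nat.add_left_cancel h3
  rw [h5]

/-- The choice of `k`. -/
lemma rank_ge {N M d g k K T D : ℕ} (hd : 1 ≤ d) (hM : 1 ≤ M) (hMN : M ^ d ≤ N)
    (hk : 2 * K ^ d * T ^ (d - 1) < k) (hT : 1 ≤ T) (hD : k * D ≤ K * M)
    (h : N ≤ (k * T) ^ g * ((N / M ^ d + 1) * D ^ d)) : d ≤ g := by
  by_contra hlt
  push Not at hlt
  obtain ⟨e, rfl⟩ : ∃ e, d = e + 1 := ⟨d - 1, by omega⟩
  simp only [Nat.add_sub_cancel] at hk
  have hkpos : 1 ≤ k := by omega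
  have hMd : 0 < M ^ (e + 1) := Nat.pow_pos hM
  have hN : 0 < N := lt_of_lt_of_le hMd hMN
  have h2 : (k * T) ^ g ≤ (k * T) ^ e := Nat.pow_le_pow_right (Nat.mul_pos hkpos hT) (by omega)
  have h3 : M ^ (e + 1) * (N / M ^ (e + 1) + 1) ≤ 2 * N := by
    have := Nat.mul_div_le N (M ^ (e + 1))
    rw [mul_add, mul_one]
    linarith
  have h4 : k ^ (e + 1) * N ≤ (k ^ e * T ^ e * (2 * K ^ (e + 1))) * N := by
    calc k ^ (e + 1) * N ≤ k ^ (e + 1) * ((k * T) ^ g * ((N / M ^ (e + 1) + 1) * D ^ (e + 1))) :=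
          Nat.mul_le_mul_left _ h
      _ = (k * T) ^ g * (N / M ^ (e + 1) + 1) * (k * D) ^ (e + 1) := by rw [mul_pow k D]; ring
      _ ≤ (k * T) ^ e * (N / M ^ (e + 1) + 1) * (K * M) ^ (e + 1) :=
          Nat.mul_le_mul (Nat.mul_le_mul_right _ h2) (Nat.pow_le_pow_left hD _)
      _ = (k * T) ^ e * K ^ (e + 1) * (M ^ (e + 1) * (N / M ^ (e + 1) + 1)) := by rw [mul_pow K M]; ring
      _ ≤ (k * T) ^ e * K ^ (e + 1) * (2 * N) := Nat.mul_le_mul_left _ h3
      _ = (k ^ e * T ^ e * (2 * K ^ (e + 1))) * N := by rw [mul_pow k T]; ring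
  have h5 : k ^ (e + 1) ≤ k ^ e * T ^ e * (2 * K ^ (e + 1)) := Nat.le_of_mul_le_mul_right h4 hN
  rw [pow_succ, mul_assoc] at h5
  have h6 : k ≤ T ^ e * (2 * K ^ (e + 1)) := Nat.le_of_mul_le_mul_left h5 (Nat.pow_pos hkpos)
  have h7 : T ^ e * (2 * K ^ (e + 1)) = 2 * K ^ (e + 1) * T ^ e := by ring
  omega

end Pool.Agent.H384.BohrRank
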